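import Pool.Agent.KAP31.Spl
import Pool.Agent.ETCT.K4
import Pool.Agent.RF66.DoorR

/-!
Doors: a least structure with `-1 = 1` which is not of elementary type has no rigid symbol
(note 1840, K4); Law K of helper19 gives the elementary type conjecture for `-1 = 1`.
-/

set_option autoImplicit false
set_option linter.unusedSectionVars false

namespace Pool.Agent.KAP31

open QS
open Pool.Agent.MXR66 (va qr qm ql of_ql cancel)
open Pool.Agent.KAP66
open Pool.Agent.AST (ZS lzs smaller qof)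
open Pool.Agent.ETG (ETZ)
open scoped Classical

/-- `S` is a least structure with `-1 = 1` which is not of elementary type -/
structure MinEx (S : QStruct) : Prop where
  fin : Finite S.G
  neg : S.neg = 1
  ne : ¬ ElemType S
  sm : ∀ T : QStruct, Finite T.G → T.neg = 1 → Nat.card T.G < Nat.card S.G → ElemType T

theorem MinEx.not_etz {S : QStruct} (M : MinEx S) : ¬ ETZ (ZS S) :=
  fun h => M.ne (h S (qof S M.neg))

/-- no rigid class -/
theorem MinEx.no_rigid {S : QStruct} (M : MinEx S) {x w : S.G} (hx : x ≠ 1)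
    (hw : S.q x w ≠ S.zero) : ∃ w' s, S.q x (w * w') = S.zero ∧ S.q w' s = S.zero ∧
      S.q x s ≠ S.zero ∧ S.q x (s * w) ≠ S.zero := by
  have := M.fin
  have : Finite (Additive S.G) := M.fin
  obtain ⟨w', s, h1, h2, h3, h4⟩ := ETCT.K4Z (Z := ZS S) (lzs S M.neg) (smaller S M.sm) M.not_etz
    (x := Additive.ofMul x) (w := Additive.ofMul w) hx hw
  exact ⟨Additive.toMul w', Additive.toMul s, h1, h2, h3, h4⟩

/-- **no rigid symbol**: `D_a ≠ V_s ∪ N_a(s)` for all slots `s` of `a ≠ 0` -/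
theorem MinEx.no_rigid_symbol {S : QStruct} (M : MinEx S) {a : S.Q} {s : S.G} (ha : a ≠ S.zero)
    (hs : InQ S s a) : ∃ v, InD S a v ∧ S.q s v ≠ S.zero ∧ S.q s v ≠ a := by
  obtain ⟨w, hw⟩ := hs
  have hs1 : s ≠ 1 := by
    rintro rfl
    apply ha
    rw [← hw, S.qs2, S.q_one]
  obtain ⟨w', v, h1, h2, h3, h4⟩ := M.no_rigid hs1 (w := w) (by rw [hw]; exact ha)
  refine ⟨v, ⟨w', ⟨s, ?_⟩, h2⟩, h3, ?_⟩
  · rw [S.qs2, ← hw]
    exact ((S.qs3 _ _ _).2 h1).symm
  · intro h5
    exact h4 ((S.qs3 _ _ _).1 (h5.trans hw.symm))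

theorem MinEx.exists_ne {S : QStruct} (M : MinEx S) : ∃ g : S.G, g ≠ 1 := by
  by_contra hno
  push Not at hno
  apply M.ne
  apply ElemType.L0
  have hs : Subsingleton S.G := ⟨fun a b => by rw [hno a, hno b]⟩
  exact Nat.card_unique

/-- no radical element -/
theorem MinEx.no_rad {S : QStruct} (M : MinEx S) {g : S.G} (hg : g ≠ 1) :
    ∃ v, S.q g v ≠ S.zero := by
  have := M.fin
  have : Finite (Additive S.G) := M.fin
  by_contra hno
  push Not at hno
  apply hg
  exact (AST.RED (Additive S.G) (ZS S) (lzs S M.neg) (smaller S M.sm) M.not_etz).1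
    (Additive.ofMul g) fun v _ => Or.inl (hno (Additive.toMul v))

theorem MinEx.exists_symbol {S : QStruct} (M : MinEx S) : ∃ a : S.Q, a ≠ S.zero := by
  obtain ⟨g, hg⟩ := M.exists_ne
  obtain ⟨v, hv⟩ := M.no_rad hg
  exact ⟨_, hv⟩

/-- the induction on the order -/
theorem etc_of_minEx (h : ∀ S : QStruct, ¬ MinEx S) :
    ∀ S : QStruct, Finite S.G → S.neg = 1 → ElemType S := by
  have key : ∀ (n : ℕ) (S : QStruct), Finite S.G → Nat.card S.G = n → S.neg = 1 →
      ElemType S := by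
    intro n
    induction n using Nat.strong_induction_on with
    | _ n ih =>
      intro S hf hn hneg
      by_contra hS
      exact h S ⟨hf, hneg, hS, fun T hT hTn hlt => ih _ (by omega) T hT rfl hTn⟩
  exact fun S hf hneg => key _ S hf rfl hneg

/-- one rigid symbol in every least structure not of elementary type -/
theorem etc_of_rigid_symbol (h : ∀ S : QStruct, MinEx S → ∃ (a : S.Q) (s : S.G), a ≠ S.zero ∧
    InQ S s a ∧ ∀ v, InD S a v → S.q s v = S.zero ∨ S.q s v = a) :
    ∀ S : QStruct, Finite S.G → S.neg = 1 → ElemType S :=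
  etc_of_minEx fun S M => by
    obtain ⟨a, s, ha, hs, h1⟩ := h S M
    obtain ⟨v, h2, h3, h4⟩ := M.no_rigid_symbol ha hs
    rcases h1 v h2 with h5 | h5
    · exact h3 h5
    · exact h4 h5

/-- **law K at one slot of one symbol with inclusion-maximal set of slots** -/
theorem etc_of_lawKat (h : ∀ S : QStruct, MinEx S → ∃ (a : S.Q) (s : S.G), a ≠ S.zero ∧
    SMax S a ∧ InQ S s a ∧ LawKat S a s) :
    ∀ S : QStruct, Finite S.G → S.neg = 1 → ElemType S :=
  etc_of_rigid_symbol fun S M => by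
    have := M.fin
    obtain ⟨a, s, ha, hmax, hs, hK⟩ := h S M
    exact ⟨a, s, ha, hs, fun v hv => rigid_of_lawK hmax hs hK hv⟩

/-- **Law K** (helper19): if `s` is a heaviest slot of `a ≠ 0` and `t, r` are slots of `a`, then
`s t ∈ Q_r` -/
def LawK (S : QStruct) : Prop := ∀ (a : S.Q) (s : S.G), a ≠ S.zero → InQ S s a →
  (∀ t, InQ S t a → va S t ≤ va S s) → LawKat S a s

/-- **Law K gives the elementary type conjecture for `-1 = 1`** -/
theorem etc_of_lawK (h : ∀ S : QStruct, MinEx S → LawK S) :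
    ∀ S : QStruct, Finite S.G → S.neg = 1 → ElemType S :=
  etc_of_lawKat fun S M => by
    have := M.fin
    obtain ⟨a0, ha0⟩ := M.exists_symbol
    obtain ⟨a, ha, -, hmax⟩ := exists_smax ha0
    obtain ⟨x, y, hxy⟩ := S.surj a
    have : Nonempty {s : S.G // InQ S s a} := ⟨⟨x, y, hxy⟩⟩
    obtain ⟨⟨s, hs⟩, hs'⟩ := Finite.exists_max (fun s : {s : S.G // InQ S s a} => va S s.1)
    exact ⟨a, s, ha, hmax, hs, h S M a s ha hs fun t ht => hs' ⟨t, ht⟩⟩

end Pool.Agent.KAP31
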