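import Pool.Agent.UC32.Door

/-!
Isotropic fibres (helper3, helper43): if `y ≠ 1`, `V_y` is isotropic and `Q_z ⊆ Q_y` for all
`z ∈ V_y`, every symbol `a ∈ Q_y` with inclusion-maximal set of slots is rigid at some `p` with
`y p = a`.  So a least structure with `-1 = 1` which is not of elementary type has no such `y`.
-/

set_option autoImplicit false
set_option linter.unusedSectionVars false

namespace Pool.Agent.KAP31

open QS Finset
open Pool.Agent.MXR66 (va qr qm ql of_ql cancel)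
open Pool.Agent.KAP66
open Pool.Agent.UC32 (ucS q_self)
open scoped Classical

/-- a family of idempotents, closed under sums, such that every element is killed by one of the
members in `N`, has a member in `N` which kills everything -/
theorem idem_end {X B : Type*} [CommGroup X] [Finite X] [CommGroup B] (hB : ∀ b : B, b * b = 1)
    (D M : Subgroup X) (N : Set X) (hNM : ∀ p ∈ N, p ∈ M) (cl : X →* B)
    (hcl : ∀ x ∈ D, cl x = 1 → x ∈ M) (τ : X → X → B)
    (h1 : ∀ f ∈ M, ∀ g ∈ M, ∀ x ∈ D, τ (f * g) x = τ f x * τ g x)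
    (h2 : ∀ f ∈ M, ∀ x ∈ D, ∀ x' ∈ D, τ f (x * x') = τ f x * τ f x')
    (h3 : ∀ f ∈ M, ∀ m ∈ M, τ f m = 1)
    (dec : ∀ f ∈ M, ∀ x ∈ D, ∃ h ∈ D, τ f x = cl h ∧ τ f h = cl h)
    (cov : ∀ x ∈ D, ∃ p ∈ N, τ p x = 1) : ∃ p ∈ N, ∀ x ∈ D, τ p x = 1 := by
  have := Fintype.ofFinite X
  obtain ⟨⟨w, hw⟩, hmin⟩ := Finite.exists_min
    (fun w : D => (univ.filter fun f => f ∈ M ∧ τ f w = 1).card)
  obtain ⟨p, hp, hpw⟩ := cov w hw
  refine ⟨p, hp, fun x hx => ?_⟩
  by_contra hne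
  obtain ⟨h, hD, e1, e2⟩ := dec p (hNM p hp) x hx
  have eqOf : ∀ {b c : B}, b * c = 1 → b = c := fun {b c} hbc =>
    mul_right_cancel (hbc.trans (hB c).symm)
  have stab : ∀ f ∈ M, ∀ l ∈ D, ∀ k ∈ D, cl l = cl k → τ f l = τ f k := by
    intro f hf l hl k hk hlk
    have m1 : l * k ∈ M := hcl _ (D.mul_mem hl hk) (by rw [map_mul, hlk, hB])
    exact eqOf ((h2 f hf l hl k hk).symm.trans (h3 f hf _ m1))
  have idem : ∀ f ∈ M, ∀ x ∈ D, ∀ k ∈ D, τ f x = cl k → τ f k = cl k := by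
    intro f hf x hx k hk hxk
    obtain ⟨l, hl, l1, l2⟩ := dec f hf x hx
    have hlk : cl l = cl k := l1.symm.trans hxk
    rw [← stab f hf l hl k hk hlk, l2, hlk]
  have claim : ∀ g ∈ M, τ g (w * h) = 1 → τ g w = 1 ∧ τ g h = 1 := by
    intro g hg hgw
    obtain ⟨k, kD, k1, k2⟩ := dec g hg h hD
    rw [h2 g hg w hw h hD] at hgw
    have a1 : τ g w = cl k := (eqOf hgw).trans k1
    have pg : p * g ∈ M := M.mul_mem (hNM p hp) hg
    have a2 : τ (p * g) k = cl k := by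
      refine idem _ pg w hw k kD ?_
      rw [h1 p (hNM p hp) g hg w hw, hpw, one_mul, a1]
    have a3 : τ (p * g) (h * k) = cl (h * k) := by
      refine idem _ pg h hD _ (D.mul_mem hD kD) ?_
      rw [h1 p (hNM p hp) g hg h hD, e2, k1, map_mul]
    rw [h2 _ pg h hD k kD, a2, h1 p (hNM p hp) g hg h hD, e2, k1, map_mul] at a3
    have a4 : cl k = 1 := by
      have := mul_left_cancel (a3.trans (mul_one _).symm)
      exact this
    exact ⟨a1.trans a4, k1.trans a4⟩
  have hlt : (univ.filter fun f => f ∈ M ∧ τ f (w * h) = 1).card <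
      (univ.filter fun f => f ∈ M ∧ τ f w = 1).card := by
    refine Finset.card_lt_card ⟨fun g hg => ?_, fun hsub => ?_⟩
    · rw [Finset.mem_filter] at hg ⊢
      exact ⟨hg.1, hg.2.1, (claim g hg.2.1 hg.2.2).1⟩
    · have h5 : p ∈ univ.filter fun f => f ∈ M ∧ τ f w = 1 :=
        Finset.mem_filter.2 ⟨Finset.mem_univ _, hNM p hp, hpw⟩
      have h6 := (Finset.mem_filter.1 (hsub h5)).2.2
      have h7 := (claim p (hNM p hp) h6).2
      exact hne (e1.trans (e2.symm.trans h7))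
  exact absurd (hmin ⟨w * h, D.mul_mem hw hD⟩) (not_le.2 hlt)

variable {S : QStruct}

/-- the common values of `x` and `y` are added in the same way -/
theorem cadd {x y f g h l : S.G} (h1 : S.q x f = S.q y h) (h2 : S.q x g = S.q y l) :
    S.q x (f * g) = S.q y (h * l) := by
  obtain ⟨m, m1, m2⟩ := slot (inQ_self x f) ⟨h, h1.symm⟩
  obtain ⟨n, n1, n2⟩ := slot (inQ_self x g) ⟨l, h2.symm⟩
  have e1 : S.q x (f * g * (m * n)) = S.zero := by
    rw [mul_mul_mul_comm, qr (qm m1.symm)]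
    exact qm n1.symm
  have e2 : S.q y (h * l * (m * n)) = S.zero := by
    rw [mul_mul_mul_comm, qr (qm (h1.symm.trans m2.symm))]
    exact qm (h2.symm.trans n2.symm)
  have e3 : S.q (x * y) (m * n) = S.zero := by
    rw [qr (ql (m1.trans m2.symm))]
    exact ql (n1.trans n2.symm)
  rw [(S.qs3 _ _ _).2 e1, (S.qs3 _ _ _).2 e2]
  exact of_ql e3

theorem cadd_left {f g x y h l : S.G} (h1 : S.q f x = S.q y h) (h2 : S.q g x = S.q y l) :
    S.q (f * g) x = S.q y (h * l) := by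
  rw [S.qs2]
  exact cadd (by rw [S.qs2]; exact h1) (by rw [S.qs2]; exact h2)

theorem slotQ {s m : S.G} {a : S.Q} (h : S.q s m = a) : InQ S m a := ⟨s, by rw [S.qs2]; exact h⟩

/-- `D_a` is a group -/
theorem InD.mul {a : S.Q} {v w : S.G} (hv : InD S a v) (hw : InD S a w) : InD S a (v * w) := by
  obtain ⟨s, hs, h1⟩ := hv
  obtain ⟨s', hs', h2⟩ := hw
  obtain ⟨m, m1, m2⟩ := slot hs hs'
  have e1 : S.q s (v * m) = a := by rw [qr h1]; exact m1
  have e2 : S.q s' (w * m) = a := by rw [qr h2]; exact m2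
  obtain ⟨k, k1, k2⟩ := slot (slotQ e1) (slotQ e2)
  refine ⟨k, slotQ k1, ?_⟩
  have e3 : S.q (v * m * (w * m)) k = S.zero := ql (k1.trans k2.symm)
  have e4 : v * m * (w * m) = v * w := by
    rw [mul_mul_mul_comm, S.exp_two, mul_one]
  rw [e4] at e3
  rw [S.qs2]
  exact e3

theorem InD.of_slot {a : S.Q} (hneg : S.neg = 1) {s : S.G} (h : InQ S s a) : InD S a s :=
  ⟨s, h, q_self hneg s⟩

/-- `D_a = ∪_(y n = a) V_n V_y` -/
theorem InD.star {a : S.Q} (hneg : S.neg = 1) {y v : S.G} (hy : InQ S y a) (hv : InD S a v) :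
    ∃ n u, S.q y n = a ∧ S.q y u = S.zero ∧ S.q n (v * u) = S.zero := by
  obtain ⟨t, ht, h1⟩ := hv
  obtain ⟨p, p1, p2⟩ := slot hy ht
  have e1 : S.q t (v * p) = a := by rw [qr h1]; exact p2
  obtain ⟨n, n1, n2⟩ := slot hy (slotQ e1)
  refine ⟨n, p * y * n, n1, ?_, ?_⟩
  · have : p * y * n = y * (p * n) := by
      rw [mul_comm p y, mul_assoc]
    rw [this, qr (q_self hneg y)]
    exact qm (p1.trans n1.symm)
  · have e2 : S.q (v * p * y) n = S.zero := ql (n2.trans n1.symm)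
    have e3 : v * (p * y * n) = n * (v * p * y) := by
      rw [mul_comm n]
      simp only [mul_assoc]
    rw [e3, qr (q_self hneg n), S.qs2]
    exact e2

/-- the data of the isotropic fibre over `y` -/
structure IsoFib (S : QStruct) (a : S.Q) (y : S.G) : Prop where
  fin : Finite S.G
  neg : S.neg = 1
  ha : a ≠ S.zero
  hmax : SMax S a
  hy : InQ S y a
  iso : ∀ z z', S.q y z = S.zero → S.q y z' = S.zero → S.q z z' = S.zero
  sub : ∀ z x, S.q y z = S.zero → InQ S y (S.q z x)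

namespace IsoFib

variable {a : S.Q} {y : S.G}

/-- `n z ∈ {0, a}` for `y n = a`, `y z = 0` -/
theorem nz (F : IsoFib S a y) {n z : S.G} (hn : S.q y n = a) (hz : S.q y z = S.zero) :
    S.q n z = S.zero ∨ S.q n z = a := by
  have := F.fin
  refine atomic ⟨y, F.hy⟩ F.hmax fun x hx => ?_
  refine ucS F.neg F.ha (g := y) ?_ F.hy (fun m hm => ?_) hx
  · have := F.sub z n hz
    rwa [S.qs2] at this
  · have e1 : S.q y (n * m) = S.zero := qm (hn.trans hm.symm)
    have e2 : S.q z (n * m) = S.zero := F.iso _ _ hz e1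
    refine ⟨z, ?_⟩
    rw [S.qs2 m z, S.qs2 n z]
    exact ((S.qs3 _ _ _).2 e2).symm

/-- `M = V_y ∪ N_a(y)` -/
def M (S : QStruct) (a : S.Q) (y f : S.G) : Prop := S.q y f = S.zero ∨ S.q y f = a

theorem z0_mul {f x x' : S.G} (h : S.q f x = S.zero ∨ S.q f x = a)
    (h' : S.q f x' = S.zero ∨ S.q f x' = a) : S.q f (x * x') = S.zero ∨ S.q f (x * x') = a := by
  rcases h with h | h
  · rw [qr h]; exact h'
  · rcases h' with h' | h'
    · rw [mul_comm, qr h']; exact Or.inr h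
    · exact Or.inl (qm (h.trans h'.symm))

theorem M.mul {f g : S.G} (hf : M S a y f) (hg : M S a y g) : M S a y (f * g) := z0_mul hf hg

/-- `M M ⊆ {0, a}` -/
theorem mm (F : IsoFib S a y) {f g : S.G} (hf : M S a y f) (hg : M S a y g) :
    S.q f g = S.zero ∨ S.q f g = a := by
  rcases hf with hf | hf
  · rcases hg with hg | hg
    · exact Or.inl (F.iso _ _ hf hg)
    · rw [S.qs2]; exact F.nz hg hf
  · rcases hg with hg | hg
    · exact F.nz hf hg
    · have h := F.nz hf (qm (hf.trans hg.symm))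
      rwa [qr (q_self F.neg f)] at h

/-- `M ⊆ D_a` -/
theorem inD (F : IsoFib S a y) {f : S.G} (hf : M S a y f) : InD S a f := by
  rcases hf with hf | hf
  · exact ⟨y, F.hy, hf⟩
  · exact InD.of_slot F.neg (slotQ hf)

/-- the decomposition of `D_a` under `f ∈ M` -/
theorem dec (F : IsoFib S a y) {f x : S.G} (hf : M S a y f) (hx : InD S a x) :
    ∃ h, InD S a h ∧ S.q f h = S.q y h ∧ (S.q f (x * h) = S.zero ∨ S.q f (x * h) = a) := by
  rcases hf with hf | hf
  · obtain ⟨w, w1, w2⟩ := slot (inQ_self f x) (F.sub f x hf)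
    have e1 : S.q f (x * w) = S.zero := qm w1.symm
    refine ⟨w, ?_, w1.trans w2.symm, Or.inl e1⟩
    obtain ⟨r, hr⟩ := F.hy
    rcases F.nz hr hf with h1 | h1
    · refine ⟨f * y, ⟨r, ?_⟩, ql (w1.trans w2.symm)⟩
      rw [qmul_left' (by rw [S.qs2]; exact h1)]
      exact hr
    · have h2 : InD S a (x * w) := ⟨f, slotQ h1, e1⟩
      have h3 := hx.mul h2
      rwa [← mul_assoc, S.exp_two, one_mul] at h3
  · obtain ⟨n, u, n1, u1, h1⟩ := hx.star F.neg F.hy
    have z1 : S.q y (f * n) = S.zero := qm (hf.trans n1.symm)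
    have e1 : S.q f (x * u) = S.q (f * n) (x * u) := by
      rw [qmul_left h1]
    have e2 : InQ S y (S.q f (x * u)) := by
      rw [e1]; exact F.sub _ _ z1
    obtain ⟨h, h2, h3⟩ := slot (inQ_self f (x * u)) e2
    refine ⟨h, ⟨f * y, ⟨y, ?_⟩, ql (h2.trans h3.symm)⟩, h2.trans h3.symm, ?_⟩
    · rw [qmul_left (q_self F.neg y), S.qs2]; exact hf
    · have e3 : S.q f (x * h * u) = S.zero := by
        rw [mul_right_comm]; exact qm h2.symm
      rw [(S.qs3 _ _ _).2 e3]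
      exact F.nz hf u1

/-- `f x ∈ Q_y` for `f ∈ M`, `x ∈ D_a` -/
theorem inY (F : IsoFib S a y) {f x : S.G} (hf : M S a y f) (hx : InD S a x) :
    ∃ s, S.q f x = S.q y s := by
  obtain ⟨h, -, h1, h2⟩ := F.dec hf hx
  have e : h * (x * h) = x := by rw [mul_comm x h, ← mul_assoc, S.exp_two, one_mul]
  rcases h2 with h2 | h2
  · refine ⟨h * 1, ?_⟩
    have := cadd h1 (h2.trans (S.q_one y).symm)
    rwa [e] at this
  · obtain ⟨r, hr⟩ := F.hy
    refine ⟨h * r, ?_⟩
    have := cadd h1 (h2.trans hr.symm)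
    rwa [e] at this

/-- the subgroup `M` -/
def MS (S : QStruct) (a : S.Q) (y : S.G) : Subgroup S.G where
  carrier := {f | M S a y f}
  mul_mem' := fun hf hg => M.mul hf hg
  one_mem' := Or.inl (S.q_one y)
  inv_mem' := fun {x} hx => by
    have : x⁻¹ = x := inv_eq_of_mul_eq_one_left (S.exp_two x)
    rw [this]
    exact hx

/-- the subgroup `D_a` -/
def DS (S : QStruct) (a : S.Q) (ha : ∃ x, InQ S x a) : Subgroup S.G where
  carrier := {v | InD S a v}
  mul_mem' := fun hf hg => InD.mul hf hg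
  one_mem' := by
    obtain ⟨x, hx⟩ := ha
    exact ⟨x, hx, S.q_one x⟩
  inv_mem' := fun {x} hx => by
    have : x⁻¹ = x := inv_eq_of_mul_eq_one_left (S.exp_two x)
    rw [this]
    exact hx

/-- `τ(f, x) = s M` with `f x = y s` -/
noncomputable def τ (S : QStruct) (a : S.Q) (y f x : S.G) : S.G ⧸ MS S a y :=
  if h : ∃ s, S.q f x = S.q y s then (h.choose : S.G ⧸ MS S a y) else 1

theorem mk_eq {s t : S.G} (h : M S a y (s * t)) :
    (s : S.G ⧸ MS S a y) = (t : S.G ⧸ MS S a y) := by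
  rw [QuotientGroup.eq]
  have : s⁻¹ = s := inv_eq_of_mul_eq_one_left (S.exp_two s)
  rw [this]
  exact h

theorem τ_eq {f x s : S.G} (h : S.q f x = S.q y s) : τ S a y f x = (s : S.G ⧸ MS S a y) := by
  have h' : ∃ s, S.q f x = S.q y s := ⟨s, h⟩
  unfold τ
  rw [dif_pos h']
  exact mk_eq (Or.inl (qm (h'.choose_spec.symm.trans h)))

theorem τ_one {f x : S.G} (hy : InQ S y a) (h : S.q f x = S.zero ∨ S.q f x = a) :
    τ S a y f x = 1 := by
  rcases h with h | h
  · rw [τ_eq (h.trans (S.q_one y).symm)]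
    rfl
  · obtain ⟨r, hr⟩ := hy
    rw [τ_eq (h.trans hr.symm), QuotientGroup.eq_one_iff]
    exact Or.inr hr

theorem of_τ_one (F : IsoFib S a y) {f x : S.G} (hf : M S a y f) (hx : InD S a x)
    (h : τ S a y f x = 1) : S.q f x = S.zero ∨ S.q f x = a := by
  obtain ⟨s, hs⟩ := F.inY hf hx
  rw [τ_eq hs, QuotientGroup.eq_one_iff] at h
  rw [hs]
  exact h

/-- **the rigid slot** -/
theorem rigid (F : IsoFib S a y) : ∃ p, S.q y p = a ∧
    ∀ v, InD S a v → S.q p v = S.zero ∨ S.q p v = a := by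
  have := F.fin
  obtain ⟨p, hp, h⟩ := idem_end (X := S.G) (B := S.G ⧸ MS S a y)
    (fun b => by
      obtain ⟨s, rfl⟩ := QuotientGroup.mk_surjective b
      rw [← QuotientGroup.mk_mul, S.exp_two]
      rfl)
    (DS S a ⟨y, F.hy⟩) (MS S a y) {p | S.q y p = a} (fun p hp => Or.inr hp)
    (QuotientGroup.mk' (MS S a y))
    (fun x _ hx => (QuotientGroup.eq_one_iff x).1 hx) (τ S a y)
    (fun f hf g hg x hx => by
      obtain ⟨s, hs⟩ := F.inY hf hx
      obtain ⟨t, ht⟩ := F.inY hg hx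
      rw [τ_eq hs, τ_eq ht, τ_eq (cadd_left hs ht), QuotientGroup.mk_mul])
    (fun f hf x hx x' hx' => by
      obtain ⟨s, hs⟩ := F.inY hf hx
      obtain ⟨t, ht⟩ := F.inY hf hx'
      rw [τ_eq hs, τ_eq ht, τ_eq (cadd hs ht), QuotientGroup.mk_mul])
    (fun f hf m hm => τ_one F.hy (F.mm hf hm))
    (fun f hf x hx => by
      obtain ⟨h, h1, h2, h3⟩ := F.dec hf hx
      refine ⟨h, h1, ?_, τ_eq h2⟩
      obtain ⟨s, hs⟩ := F.inY hf hx
      have e1 : τ S a y f (x * h) = 1 := τ_one F.hy h3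
      rw [τ_eq (cadd hs h2)] at e1
      rw [τ_eq hs]
      exact mk_eq ((QuotientGroup.eq_one_iff _).1 e1))
    (fun x hx => by
      obtain ⟨n, u, n1, u1, h1⟩ := InD.star F.neg F.hy hx
      refine ⟨n, n1, τ_one F.hy ?_⟩
      rw [(S.qs3 _ _ _).2 h1]
      exact F.nz n1 u1)
  exact ⟨p, hp, fun v hv => F.of_τ_one (Or.inr hp) hv (h v hv)⟩

end IsoFib

/-- **helper3's theorem**: a least structure which is not of elementary type has no `y ≠ 1` with
`V_y` isotropic and `Q_z ⊆ Q_y` for all `z ∈ V_y` -/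
theorem MinEx.no_iso (M : MinEx S) {y : S.G} (hy : y ≠ 1)
    (iso : ∀ z z', S.q y z = S.zero → S.q y z' = S.zero → S.q z z' = S.zero)
    (sub : ∀ z x, S.q y z = S.zero → InQ S y (S.q z x)) : False := by
  have := M.fin
  obtain ⟨v, hv⟩ := M.no_rad hy
  obtain ⟨a, ha, hle, hmax⟩ := exists_smax hv
  have hya : InQ S y a := hle y ⟨v, rfl⟩
  have F : IsoFib S a y := ⟨M.fin, M.neg, ha, hmax, hya, iso, sub⟩
  obtain ⟨p, hp, h1⟩ := F.rigid
  obtain ⟨w, h2, h3, h4⟩ := M.no_rigid_symbol ha (slotQ hp)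
  rcases h1 w h2 with h5 | h5
  · exact h3 h5
  · exact h4 h5

/-- **the door**: one `y ≠ 1` with `V_y` isotropic and `Q_z ⊆ Q_y` for all `z ∈ V_y` -/
theorem etc_of_iso (h : ∀ S : QStruct, MinEx S → ∃ y : S.G, y ≠ 1 ∧
    (∀ z z', S.q y z = S.zero → S.q y z' = S.zero → S.q z z' = S.zero) ∧
    ∀ z x, S.q y z = S.zero → InQ S y (S.q z x)) :
    ∀ S : QStruct, Finite S.G → S.neg = 1 → ElemType S :=
  etc_of_minEx fun S M => by
    obtain ⟨y, hy, h1, h2⟩ := h S M
    exact M.no_iso hy h1 h2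

end Pool.Agent.KAP31
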