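import Pool.Agent.KAP31.Sym3

/-!
helper34's row Fourier identity: for a character `ξ` and a symbol `a` there is ONE sign `ε` with
`∑_(w' ∈ S_a) |V_w ∩ V_w'| ξ(w') = ε ∑_(t : w t = a, V_t ≤ ker ξ) |V_t|` for all `w ∈ S_a`.
-/

set_option autoImplicit false
set_option linter.unusedSectionVars false

namespace Pool.Agent.KAP31

open QS Finset
open Pool.Agent.MXR66 (va qr qm ql of_ql cancel)
open Pool.Agent.KAP66
open scoped Classical

variable {S : QStruct}

/-- `V_t ≤ ker ξ` -/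
def Kills (S : QStruct) (ξ : S.G →* ℤˣ) (t : S.G) : Prop := ∀ v, S.q t v = S.zero → ξ v = 1

theorem xi_eq {ξ : S.G →* ℤˣ} {t x y : S.G} (ht : Kills S ξ t) (h : S.q t x = S.q t y) :
    ξ x = ξ y := by
  have h1 := ht _ (qm h)
  rw [map_mul] at h1
  exact mul_eq_one_iff_eq_inv.1 h1 |>.trans (Int.units_inv_eq_self _)

/-- the sign is the same for all slots -/
theorem sign_unique {ξ : S.G →* ℤˣ} {t t' w w' : S.G} {a : S.Q} (ht : Kills S ξ t)
    (ht' : Kills S ξ t') (h : S.q t w = a) (h' : S.q t' w' = a) : ξ w = ξ w' := by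
  obtain ⟨x, h1, h2⟩ := slot ⟨w, h⟩ ⟨w', h'⟩
  rw [xi_eq ht (h.trans h1.symm), xi_eq ht' (h'.trans h2.symm)]

variable [Fintype S.G]

/-- the sum of a character over `V_t` -/
theorem sum_V (ξ : S.G →* ℤˣ) (t : S.G) :
    ∑ v ∈ univ.filter (fun v => S.q t v = S.zero), ((ξ v : ℤˣ) : ℤ) =
      if Kills S ξ t then (va S t : ℤ) else 0 := by
  by_cases h : Kills S ξ t
  · rw [if_pos h, Finset.sum_congr rfl (g := fun _ => (1 : ℤ)) fun v hv => by
      rw [h v (Finset.mem_filter.1 hv).2, Units.val_one]]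
    rw [Finset.sum_const, nsmul_eq_mul, mul_one]
    unfold va
    rw [Nat.card_eq_fintype_card, Fintype.card_subtype]
  · rw [if_neg h]
    unfold Kills at h
    push Not at h
    obtain ⟨k, hk, hk1⟩ := h
    have hk2 : ξ k = -1 := by
      rcases Int.units_eq_one_or (ξ k) with h | h
      · exact absurd h hk1
      · exact h
    have h1 : ∑ v ∈ univ.filter (fun v => S.q t v = S.zero), ((ξ v : ℤˣ) : ℤ) =
        ∑ v ∈ univ.filter (fun v => S.q t v = S.zero), ((ξ (k * v) : ℤˣ) : ℤ) := by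
      refine (Finset.sum_nbij' (fun v => k * v) (fun v => k * v) ?_ ?_ ?_ ?_ ?_)
      · intro v hv
        rw [Finset.mem_filter] at hv ⊢
        exact ⟨Finset.mem_univ _, by rw [qr hk]; exact hv.2⟩
      · intro v hv
        rw [Finset.mem_filter] at hv ⊢
        exact ⟨Finset.mem_univ _, by rw [qr hk]; exact hv.2⟩
      · intro v _
        show k * (k * v) = v
        rw [← mul_assoc, S.exp_two, one_mul]
      · intro v _
        show k * (k * v) = v
        rw [← mul_assoc, S.exp_two, one_mul]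
      · intro v _
        show _ = ((ξ (k * (k * v)) : ℤˣ) : ℤ)
        rw [← mul_assoc, S.exp_two, one_mul]
    have h2 : ∑ v ∈ univ.filter (fun v => S.q t v = S.zero), ((ξ (k * v) : ℤˣ) : ℤ) =
        - ∑ v ∈ univ.filter (fun v => S.q t v = S.zero), ((ξ v : ℤˣ) : ℤ) := by
      rw [← Finset.sum_neg_distrib]
      refine Finset.sum_congr rfl fun v _ => ?_
      rw [map_mul, hk2]
      simp
    omega

/-- the sum of a character over the coset of `V_t` of the elements with value `a` -/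
theorem sum_coset (ξ : S.G →* ℤˣ) {t w : S.G} {a : S.Q} (h : S.q t w = a) :
    ∑ v ∈ univ.filter (fun v => S.q t v = a), ((ξ v : ℤˣ) : ℤ) =
      if Kills S ξ t then ((ξ w : ℤˣ) : ℤ) * (va S t : ℤ) else 0 := by
  have h1 : ∑ v ∈ univ.filter (fun v => S.q t v = a), ((ξ v : ℤˣ) : ℤ) =
      ((ξ w : ℤˣ) : ℤ) * ∑ v ∈ univ.filter (fun v => S.q t v = S.zero), ((ξ v : ℤˣ) : ℤ) := by
    rw [Finset.mul_sum]
    refine (Finset.sum_nbij' (fun v => w * v) (fun v => w * v) ?_ ?_ ?_ ?_ ?_)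
    · intro v hv
      rw [Finset.mem_filter] at hv ⊢
      exact ⟨Finset.mem_univ _, qm (h.trans hv.2.symm)⟩
    · intro v hv
      rw [Finset.mem_filter] at hv ⊢
      refine ⟨Finset.mem_univ _, ?_⟩
      rw [mul_comm, qr hv.2]; exact h
    · intro v _
      show w * (w * v) = v
      rw [← mul_assoc, S.exp_two, one_mul]
    · intro v _
      show w * (w * v) = v
      rw [← mul_assoc, S.exp_two, one_mul]
    · intro v _
      show _ = ((ξ w : ℤˣ) : ℤ) * ((ξ (w * v) : ℤˣ) : ℤ)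
      rw [← Units.val_mul, ← map_mul, ← mul_assoc, S.exp_two, one_mul]
  rw [h1, sum_V]
  split_ifs <;> simp

/-- **row Fourier identity**, with the sign `ξ w` -/
theorem row_fourier_w (ξ : S.G →* ℤˣ) {w : S.G} {a : S.Q} (hw : InQ S w a) :
    ∑ w' ∈ univ.filter (fun w' => InQ S w' a), (cv S w w' : ℤ) * ((ξ w' : ℤˣ) : ℤ) =
      ((ξ w : ℤˣ) : ℤ) *
        ∑ t ∈ univ.filter (fun t => S.q w t = a ∧ Kills S ξ t), (va S t : ℤ) := by
  have e1 : ∀ w' ∈ univ.filter (fun w' => InQ S w' a),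
      (cv S w w' : ℤ) * ((ξ w' : ℤˣ) : ℤ) =
        ∑ t : S.G, if S.q w t = a ∧ S.q w' t = a then ((ξ w' : ℤˣ) : ℤ) else 0 := by
    intro w' hw'
    rw [← card_common hw (Finset.mem_filter.1 hw').2, Nat.card_eq_fintype_card,
      Fintype.card_subtype, Finset.card_filter, Nat.cast_sum, Finset.sum_mul]
    refine Finset.sum_congr rfl fun t _ => ?_
    split_ifs <;> simp
  rw [Finset.sum_congr rfl e1, Finset.sum_comm, Finset.mul_sum, Finset.sum_filter]
  refine Finset.sum_congr rfl fun t _ => ?_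
  by_cases h : S.q w t = a
  · have e2 : ∑ w' ∈ univ.filter (fun w' => InQ S w' a),
        (if S.q w t = a ∧ S.q w' t = a then ((ξ w' : ℤˣ) : ℤ) else 0) =
        ∑ w' ∈ univ.filter (fun w' => S.q t w' = a), ((ξ w' : ℤˣ) : ℤ) := by
      rw [← Finset.sum_filter, Finset.filter_filter]
      refine Finset.sum_congr (Finset.filter_congr fun w' _ => ?_) fun _ _ => rfl
      constructor
      · rintro ⟨-, -, h3⟩
        rw [S.qs2]; exact h3
      · intro h3
        rw [S.qs2] at h3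
        exact ⟨⟨t, h3⟩, h, h3⟩
    rw [e2, sum_coset ξ (w := w) (by rw [S.qs2]; exact h)]
    by_cases hk : Kills S ξ t <;> simp [h, hk]
  · simp [h]

/-- **row Fourier identity** (helper34): one sign for all `w ∈ S_a` -/
theorem row_fourier (ξ : S.G →* ℤˣ) (a : S.Q) : ∃ ε : ℤˣ, ∀ w : S.G, InQ S w a →
    ∑ w' ∈ univ.filter (fun w' => InQ S w' a), (cv S w w' : ℤ) * ((ξ w' : ℤˣ) : ℤ) =
      ((ε : ℤˣ) : ℤ) *
        ∑ t ∈ univ.filter (fun t => S.q w t = a ∧ Kills S ξ t), (va S t : ℤ) := by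
  by_cases h : ∃ w t : S.G, S.q t w = a ∧ Kills S ξ t
  · obtain ⟨w₀, t₀, h0, hk0⟩ := h
    refine ⟨ξ w₀, fun w hw => ?_⟩
    rw [row_fourier_w ξ hw, Finset.mul_sum, Finset.mul_sum]
    refine Finset.sum_congr rfl fun t ht => ?_
    obtain ⟨-, h1, h2⟩ := Finset.mem_filter.1 ht
    rw [sign_unique h2 hk0 (by rw [S.qs2]; exact h1) h0]
  · refine ⟨1, fun w hw => ?_⟩
    rw [row_fourier_w ξ hw, Finset.sum_eq_zero, mul_zero, mul_zero]
    intro t ht
    obtain ⟨-, h1, h2⟩ := Finset.mem_filter.1 ht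
    exact absurd ⟨w, t, by rw [S.qs2]; exact h1, h2⟩ h

/-- **2-adic form**: if `m` divides `|V_t|` for all `t` with `w t = a`, then `m` divides the row
sum twisted by any character -/
theorem row_dvd (ξ : S.G →* ℤˣ) {w : S.G} {a : S.Q} (hw : InQ S w a) {m : ℕ}
    (hm : ∀ t, S.q w t = a → m ∣ va S t) :
    (m : ℤ) ∣ ∑ w' ∈ univ.filter (fun w' => InQ S w' a), (cv S w w' : ℤ) * ((ξ w' : ℤˣ) : ℤ) := by
  rw [row_fourier_w ξ hw]
  refine Dvd.dvd.mul_left (Finset.dvd_sum fun t ht => ?_) _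
  exact Int.natCast_dvd_natCast.2 (hm t (Finset.mem_filter.1 ht).2.1)

end Pool.Agent.KAP31
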