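import Pool.Agent.KAP66.Basic

/-!
One symbol of a finite structure: Lemma 0 of helper65 (a symbol is determined by its slots),
the atomic lemma, helper93's Lemma SPL, and helper19's Law K: all set valued.
-/

set_option autoImplicit false
set_option linter.unusedSectionVars false

namespace Pool.Agent.KAP31

open QS Finset
open Pool.Agent.MXR66 (va qr qm ql of_ql cancel)
open Pool.Agent.KAP66
open scoped Classical

variable {S : QStruct}

/-- `x t = c`, `y t = e` for some `t` gives `x t' = e`, `y t' = c` for some `t'`, if `x`, `y` have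
both values -/
theorem cross {x y t : S.G} {c e : S.Q} (hxc : InQ S x c) (hyc : InQ S y c) (hxe : InQ S x e)
    (hye : InQ S y e) (h1 : S.q x t = c) (h2 : S.q y t = e) :
    ∃ t', S.q x t' = e ∧ S.q y t' = c := by
  obtain ⟨p, hp1, hp2⟩ := slot hxc hyc
  obtain ⟨p', hp1', hp2'⟩ := slot hxe hye
  refine ⟨p * t * p', ?_, ?_⟩
  · rw [qr (qm (hp1.trans h1.symm))]; exact hp1'
  · rw [mul_comm p t, mul_assoc, mul_comm p p', ← mul_assoc,
      qr (qm (h2.trans hp2'.symm))]
    exact hp2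

section Matrix

variable [Fintype S.G]

/-- `T T' ≤ M`: the number of `t` with `x t = c`, `y t = e` -/
noncomputable def nn (S : QStruct) [Fintype S.G] (c e : S.Q) (x y : S.G) : ℕ :=
  (univ.filter fun t => S.q x t = c ∧ S.q y t = e).card

theorem nn_le (c e : S.Q) (x y : S.G) : nn S c e x y ≤ cv S x y := by
  by_cases h : ∃ t, S.q x t = c ∧ S.q y t = e
  · obtain ⟨t, h1, h2⟩ := h
    unfold nn
    refine le_of_eq ?_
    have h3 : Nat.card {v : S.G // S.q x v = c ∧ S.q y v = e} = cv S x y := by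
      unfold cv
      refine Nat.card_congr
        { toFun := fun v => ⟨v.1 * t, ?_, ?_⟩
          invFun := fun v => ⟨v.1 * t, ?_, ?_⟩
          left_inv := fun v => Subtype.ext ?_
          right_inv := fun v => Subtype.ext ?_ }
      · exact qm (v.2.1.trans h1.symm)
      · exact qm (v.2.2.trans h2.symm)
      · rw [qr v.2.1]; exact h1
      · rw [qr v.2.2]; exact h2
      · show v.1 * t * t = v.1
        rw [mul_assoc, S.exp_two, mul_one]
      · show v.1 * t * t = v.1
        rw [mul_assoc, S.exp_two, mul_one]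
    rw [← h3, Nat.card_eq_fintype_card, Fintype.card_subtype]
  · unfold nn
    rw [Finset.card_eq_zero.2]
    · exact Nat.zero_le _
    · rw [Finset.filter_eq_empty_iff]
      rintro t - ⟨h1, h2⟩
      exact h ⟨t, h1, h2⟩

theorem nn_full {c e : S.Q} {x y t : S.G} (h1 : S.q x t = c) (h2 : S.q y t = e) :
    nn S c e x y = cv S x y := by
  unfold nn
  have h3 : Nat.card {v : S.G // S.q x v = c ∧ S.q y v = e} = cv S x y := by
    unfold cv
    refine Nat.card_congr
      { toFun := fun v => ⟨v.1 * t, ?_, ?_⟩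
        invFun := fun v => ⟨v.1 * t, ?_, ?_⟩
        left_inv := fun v => Subtype.ext ?_
        right_inv := fun v => Subtype.ext ?_ }
    · exact qm (v.2.1.trans h1.symm)
    · exact qm (v.2.2.trans h2.symm)
    · rw [qr v.2.1]; exact h1
    · rw [qr v.2.2]; exact h2
    · show v.1 * t * t = v.1
      rw [mul_assoc, S.exp_two, mul_one]
    · show v.1 * t * t = v.1
      rw [mul_assoc, S.exp_two, mul_one]
  rw [← h3, Nat.card_eq_fintype_card, Fintype.card_subtype]

end Matrix

/-- `∑_y (T T')(x0, y) (T' T)(y, x0) = ∑_(t, u ∈ N_x0(c)) |V_t ∩ V_u|` -/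
theorem sum_nn [Fintype S.G] {c e : S.Q} (h : ∀ x, InQ S x c ↔ InQ S x e) (x0 : S.G) :
    ∑ y ∈ univ.filter (fun y => InQ S y c), nn S c e x0 y * nn S e c y x0 =
      ∑ t ∈ univ.filter (fun t => S.q x0 t = c), ∑ u ∈ univ.filter (fun u => S.q x0 u = c),
        cv S t u := by
  have e1 : ∀ y, nn S c e x0 y =
      ∑ t ∈ univ.filter (fun t => S.q x0 t = c), if S.q y t = e then 1 else 0 := fun y => by
    unfold nn
    rw [← Finset.card_filter, Finset.filter_filter]
  have e2 : ∀ y, nn S e c y x0 =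
      ∑ u ∈ univ.filter (fun u => S.q x0 u = c), if S.q y u = e then 1 else 0 := fun y => by
    unfold nn
    rw [← Finset.card_filter, Finset.filter_filter]
    congr 1
    exact Finset.filter_congr fun t _ => and_comm
  have e3 : ∀ y, nn S c e x0 y * nn S e c y x0 =
      ∑ t ∈ univ.filter (fun t => S.q x0 t = c), ∑ u ∈ univ.filter (fun u => S.q x0 u = c),
        if S.q y t = e ∧ S.q y u = e then 1 else 0 := fun y => by
    rw [e1, e2, Finset.sum_mul_sum]
    refine Finset.sum_congr rfl fun t _ => Finset.sum_congr rfl fun u _ => ?_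
    by_cases h1 : S.q y t = e <;> by_cases h2 : S.q y u = e <;> simp [h1, h2]
  rw [Finset.sum_congr rfl fun y _ => e3 y, Finset.sum_comm]
  refine Finset.sum_congr rfl fun t ht => ?_
  rw [Finset.sum_comm]
  refine Finset.sum_congr rfl fun u hu => ?_
  have ht' : InQ S t e := (h t).1 ⟨x0, by rw [S.qs2]; exact (Finset.mem_filter.1 ht).2⟩
  have hu' : InQ S u e := (h u).1 ⟨x0, by rw [S.qs2]; exact (Finset.mem_filter.1 hu).2⟩
  rw [← card_common ht' hu', Nat.card_eq_fintype_card, Fintype.card_subtype,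
    ← Finset.card_filter, Finset.filter_filter]
  congr 1
  refine Finset.filter_congr fun y _ => ?_
  rw [S.qs2 y t, S.qs2 y u]
  constructor
  · exact fun h1 => h1.2
  · exact fun h1 => ⟨(h y).2 ⟨t, by rw [S.qs2]; exact h1.1⟩, h1⟩

/-- **Lemma 0** (helper65): a symbol is determined by its slots.  Proof: on the common set of
slots let `T`, `T'` be the matrices of `x t = c`, `x t = e`; the entry `(x, x)` of `T T'` is `0`,
but `(T T')² = M²` with `T T' ≤ M`, `M > 0`. -/
theorem lemma0 [Finite S.G] {c e : S.Q} (hne : ∃ x, InQ S x c)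
    (h : ∀ x, InQ S x c ↔ InQ S x e) : c = e := by
  have := Fintype.ofFinite S.G
  obtain ⟨x0, hx0⟩ := hne
  by_contra hce
  set W : Finset S.G := univ.filter fun x => InQ S x c with hW
  have memW : ∀ x, x ∈ W ↔ InQ S x c := fun x => by rw [hW, Finset.mem_filter]; simp
  have hsym : ∀ y ∈ W, nn S c e y x0 = nn S e c y x0 := by
    intro y hy
    rw [memW] at hy
    by_cases hh : ∃ t, S.q y t = c ∧ S.q x0 t = e
    · obtain ⟨t, h1, h2⟩ := hh
      obtain ⟨t', h3, h4⟩ := cross hy hx0 ((h y).1 hy) ((h x0).1 hx0) h1 h2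
      rw [nn_full h1 h2, nn_full h3 h4]
    · have h5 : ¬ ∃ t, S.q y t = e ∧ S.q x0 t = c := by
        rintro ⟨t, h3, h4⟩
        exact hh (cross ((h y).1 hy) ((h x0).1 hx0) hy hx0 h3 h4)
      unfold nn
      rw [Finset.card_eq_zero.2, Finset.card_eq_zero.2]
      · rw [Finset.filter_eq_empty_iff]
        rintro t - ⟨h1, h2⟩
        exact h5 ⟨t, h1, h2⟩
      · rw [Finset.filter_eq_empty_iff]
        rintro t - ⟨h1, h2⟩
        exact hh ⟨t, h1, h2⟩
  have key : ∑ y ∈ W, nn S c e x0 y * nn S c e y x0 = ∑ y ∈ W, cv S x0 y * cv S y x0 := by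
    rw [Finset.sum_congr rfl fun y hy => by rw [hsym y hy], hW, sum_nn h x0,
      ← sum_nn (c := c) (e := c) (fun _ => Iff.rfl) x0]
    refine Finset.sum_congr rfl fun y hy => ?_
    have hy' : InQ S y c := (Finset.mem_filter.1 hy).2
    obtain ⟨t, h1, h2⟩ := slot hx0 hy'
    rw [nn_full h1 h2, nn_full h2 h1]
  have hle : ∀ y ∈ W, nn S c e x0 y * nn S c e y x0 ≤ cv S x0 y * cv S y x0 := fun y _ =>
    Nat.mul_le_mul (nn_le _ _ _ _) (nn_le _ _ _ _)
  have hx0W : x0 ∈ W := (memW x0).2 hx0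
  have hz : nn S c e x0 x0 = 0 := by
    unfold nn
    rw [Finset.card_eq_zero, Finset.filter_eq_empty_iff]
    rintro t - ⟨h1, h2⟩
    exact hce (h1.symm.trans h2)
  have hlt : ∑ y ∈ W, nn S c e x0 y * nn S c e y x0 < ∑ y ∈ W, cv S x0 y * cv S y x0 := by
    refine Finset.sum_lt_sum hle ⟨x0, hx0W, ?_⟩
    rw [hz, zero_mul]
    exact Nat.mul_pos (cv_pos _ _) (cv_pos _ _)
  omega

/-- `S_a` is inclusion-maximal among the symbols different from `0` -/
def SMax (S : QStruct) (a : S.Q) : Prop :=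
  ∀ b, b ≠ S.zero → (∀ x, InQ S x a → InQ S x b) → ∀ x, InQ S x b → InQ S x a

/-- **the atomic lemma**: if `S_a` is inclusion-maximal, `∩_(x ∈ S_a) Q_x = {0, a}` -/
theorem atomic [Finite S.G] {a b : S.Q} (hne : ∃ x, InQ S x a) (hmax : SMax S a)
    (hb : ∀ x, InQ S x a → InQ S x b) : b = S.zero ∨ b = a := by
  by_cases h0 : b = S.zero
  · exact Or.inl h0
  · exact Or.inr (lemma0 hne fun x => ⟨hb x, hmax b h0 hb x⟩).symm

/-- there is a symbol with inclusion-maximal set of slots above every symbol -/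
theorem exists_smax [Finite S.G] {a : S.Q} (ha : a ≠ S.zero) :
    ∃ b, b ≠ S.zero ∧ (∀ x, InQ S x a → InQ S x b) ∧ SMax S b := by
  have := Fintype.ofFinite S.G
  have := finQ (S := S)
  have hne : Nonempty {b : S.Q // b ≠ S.zero ∧ ∀ x, InQ S x a → InQ S x b} :=
    ⟨⟨a, ha, fun _ h => h⟩⟩
  obtain ⟨⟨b, hb0, hb⟩, hmax⟩ := Finite.exists_max
    (fun b : {b : S.Q // b ≠ S.zero ∧ ∀ x, InQ S x a → InQ S x b} =>
      (univ.filter fun x => InQ S x b.1).card)
  refine ⟨b, hb0, hb, fun c hc h x hx => ?_⟩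
  have h1 := hmax ⟨c, hc, fun x hx => h x (hb x hx)⟩
  have h2 : (univ.filter fun x => InQ S x b) ⊆ univ.filter fun x => InQ S x c := by
    intro y hy
    rw [Finset.mem_filter] at hy ⊢
    exact ⟨hy.1, h y hy.2⟩
  have h3 := Finset.eq_of_subset_of_card_le h2 h1
  have h4 : x ∈ univ.filter fun x => InQ S x c := by
    rw [Finset.mem_filter]; exact ⟨Finset.mem_univ _, hx⟩
  rw [← h3, Finset.mem_filter] at h4
  exact h4.2

/-- `y` splits `a` at `s`: `V_s ≤ V_y`, `s v = a`, `y v ∈ Q_s`, `a ∉ Q_y ∪ Q_(sy)` -/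
structure Splits (S : QStruct) (a : S.Q) (s y v : S.G) : Prop where
  cen : ∀ w, S.q s w = S.zero → S.q y w = S.zero
  sv : S.q s v = a
  yv : InQ S s (S.q y v)
  ny : ¬ InQ S y a
  nz : ¬ InQ S (s * y) a

theorem Splits.symm {a : S.Q} {s y v : S.G} (h : Splits S a s y v) : Splits S a s (s * y) v := by
  refine ⟨fun w hw => ?_, h.sv, ?_, h.nz, ?_⟩
  · rw [qmul_left' hw]; exact h.cen w hw
  · -- common slot of `y` and `s` for `y v`
    obtain ⟨r, h1, h2⟩ := slot (inQ_self y v) h.yv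
    have h3 : S.q y (v * r) = S.zero := qm h1.symm
    have h4 : S.q (s * y) r = S.zero := ql (h2.trans h1.symm)
    refine ⟨v * r, ?_⟩
    rw [← qmul_left (x := s) h3, mul_comm v r, qr h4]
  · rw [← mul_assoc, S.exp_two, one_mul]; exact h.ny

theorem Splits.ne_zero {a : S.Q} {s y v : S.G} (h : Splits S a s y v) : S.q y v ≠ S.zero := by
  intro h0
  apply h.nz
  exact ⟨v, by rw [qmul_left h0]; exact h.sv⟩

/-- **Lemma SPL** (helper93): if `y` splits `a` at `s`, `α = y v`, then `S_a ⊆ S_α` ... -/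
theorem Splits.sub {a : S.Q} {s y v : S.G} (h : Splits S a s y v) {x : S.G} (hx : InQ S x a) :
    InQ S x (S.q y v) := by
  obtain ⟨w, h1, h2⟩ := slot ⟨v, h.sv⟩ hx
  -- `w + v ∈ V_s ≤ V_y`
  have h3 : S.q y w = S.q y v := (S.qs3 _ _ _).2 (h.cen _ ((S.qs3 _ _ _).1 (h1.trans h.sv.symm)))
  -- `(x + s) w = 0`, so `(x + s + y) w = y w`
  have h4 : S.q (x * s) w = S.zero := ql (h2.trans h1.symm)
  have h5 : S.q (x * s * y) w = S.q y v := by rw [qmul_left' h4, h3]
  obtain ⟨t, h6, h7⟩ := slot h.yv ⟨w, h5⟩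
  -- common slot `r` of `s` and `y` for `α`
  obtain ⟨r, h8, h9⟩ := slot h.yv (inQ_self y v)
  have h10 : S.q y t = S.q y v :=
    ((S.qs3 _ _ _).2 (h.cen _ ((S.qs3 _ _ _).1 (h6.trans h8.symm)))).trans h9
  have h11 : S.q (s * y) t = S.zero := ql (h6.trans h10.symm)
  refine ⟨t, ?_⟩
  rw [← h7, mul_assoc, qmul_left h11]

/-- ... strictly -/
theorem Splits.strict {a : S.Q} {s y v : S.G} (h : Splits S a s y v) :
    InQ S y (S.q y v) ∧ ¬ InQ S y a := ⟨⟨v, rfl⟩, h.ny⟩

/-- nothing splits a symbol with inclusion-maximal set of slots -/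
theorem SMax.not_splits {a : S.Q} (hmax : SMax S a) {s y v : S.G} : ¬ Splits S a s y v := by
  intro h
  exact h.ny (hmax _ h.ne_zero (fun x hx => h.sub hx) y ⟨v, rfl⟩)

/-- `v ∈ D_a` -/
def InD (S : QStruct) (a : S.Q) (v : S.G) : Prop := ∃ t, InQ S t a ∧ S.q t v = S.zero

/-- every element of `D_a` is the product of two slots -/
theorem InD.two {a : S.Q} {v : S.G} (h : InD S a v) : ∃ t, InQ S t a ∧ InQ S (t * v) a := by
  obtain ⟨t, ⟨t', h1⟩, h2⟩ := h
  refine ⟨t', ⟨t, by rw [S.qs2]; exact h1⟩, ⟨t, ?_⟩⟩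
  rw [S.qs2, mul_comm, qr h2]
  exact h1

/-- law K (helper19) at the symbol `a` and the slot `s`: `s t ∈ Q_r` for all slots `t, r` of `a` -/
def LawKat (S : QStruct) (a : S.Q) (s : S.G) : Prop :=
  ∀ t r, InQ S t a → InQ S r a → InQ S r (S.q s t)

/-- law K at `(a, s)` with `S_a` inclusion-maximal: `D_a = V_s ∪ N_a(s)` -/
theorem rigid_of_lawK [Finite S.G] {a : S.Q} {s : S.G} (hmax : SMax S a) (hs : InQ S s a)
    (hK : LawKat S a s) {v : S.G} (hv : InD S a v) : S.q s v = S.zero ∨ S.q s v = a := by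
  obtain ⟨t, h1, h2⟩ := hv.two
  have h3 := atomic ⟨s, hs⟩ hmax (fun r hr => hK t r h1 hr)
  have h4 := atomic ⟨s, hs⟩ hmax (fun r hr => hK (t * v) r h2 hr)
  have e : t * (t * v) = v := by rw [← mul_assoc, S.exp_two, one_mul]
  rcases h3 with h3 | h3 <;> rcases h4 with h4 | h4
  · left; rw [qr h3] at h4; exact h4
  · right; rw [qr h3] at h4; exact h4
  · right
    rw [← e, mul_comm t (t * v), qr h4]
    exact h3
  · left
    rw [← e]
    exact qm (h3.trans h4.symm)

end Pool.Agent.KAP31
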