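import Pool.Agent.KAP66.Basic

/-!
helper23's symmetric third-moment identity, for symbols on any finite group structure (any kappa):
for `a` a value of `g` and of `s`,
`∑_(x ∈ V_s, a ∉ Q_(gx)) |V_g ∩ V_x| = ∑_(y ∈ V_g, a ∉ Q_(sy)) |V_s ∩ V_y|`.
-/

set_option autoImplicit false
set_option linter.unusedSectionVars false

namespace Pool.Agent.KAP31

open QS Finset
open Pool.Agent.MXR66 (va qr qm ql of_ql cancel)
open Pool.Agent.KAP66
open scoped Classical

variable {S : QStruct}

/-- the elements with values `a`, `b` at `x`, `y` form a coset of `V_x ∩ V_y` -/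
theorem card_coset2 {x y t : S.G} {a b : S.Q} (h1 : S.q x t = a) (h2 : S.q y t = b) :
    Nat.card {v : S.G // S.q x v = a ∧ S.q y v = b} = cv S x y := by
  unfold cv
  refine Nat.card_congr
    { toFun := fun v => ⟨v.1 * t, ?_, ?_⟩
      invFun := fun v => ⟨v.1 * t, ?_, ?_⟩
      left_inv := fun v => Subtype.ext ?_
      right_inv := fun v => Subtype.ext ?_ }
  · exact qm (v.2.1.trans h1.symm)
  · exact qm (v.2.2.trans h2.symm)
  · rw [qr v.2.1]; exact h1
  · rw [qr v.2.2]; exact h2
  · show v.1 * t * t = v.1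
    rw [mul_assoc, S.exp_two, mul_one]
  · show v.1 * t * t = v.1
    rw [mul_assoc, S.exp_two, mul_one]

/-- `a` is the value at `g` of an element of `V_x` iff `a` is a value of `g` and of `g x` -/
theorem slot0_iff {g x : S.G} {a : S.Q} :
    (∃ t, S.q g t = a ∧ S.q x t = S.zero) ↔ InQ S g a ∧ InQ S (g * x) a := by
  constructor
  · rintro ⟨t, h1, h2⟩
    exact ⟨⟨t, h1⟩, ⟨t, by rw [qmul_left h2]; exact h1⟩⟩
  · rintro ⟨h1, h2⟩
    exact slot0 h1 h2

variable [Fintype S.G]

theorem cv_filter (x y : S.G) :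
    cv S x y = (univ.filter fun v => S.q x v = S.zero ∧ S.q y v = S.zero).card := by
  unfold cv
  rw [Nat.card_eq_fintype_card, Fintype.card_subtype]

theorem card_coset2_filter {x y t : S.G} {a b : S.Q} (h1 : S.q x t = a) (h2 : S.q y t = b) :
    (univ.filter fun v => S.q x v = a ∧ S.q y v = b).card = cv S x y := by
  rw [← card_coset2 h1 h2, Nat.card_eq_fintype_card, Fintype.card_subtype]

/-- the row identity -/
theorem row_in {g : S.G} (s : S.G) {a : S.Q} (hg : InQ S g a) :
    ∑ t ∈ univ.filter (fun t => S.q g t = a), cv S t s =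
      ∑ x ∈ univ.filter (fun x => S.q s x = S.zero ∧ InQ S (g * x) a), cv S g x := by
  have e1 : ∀ t : S.G, cv S t s =
      ∑ x : S.G, if S.q t x = S.zero ∧ S.q s x = S.zero then 1 else 0 := fun t => by
    rw [cv_filter, Finset.card_filter]
  rw [Finset.sum_congr rfl fun t _ => e1 t, Finset.sum_comm, Finset.sum_filter]
  refine Finset.sum_congr rfl fun x _ => ?_
  rw [Finset.sum_filter]
  have e2 : ∀ t : S.G, (if S.q g t = a then
      (if S.q t x = S.zero ∧ S.q s x = S.zero then 1 else 0) else 0 : ℕ) =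
      if S.q s x = S.zero then (if S.q g t = a ∧ S.q x t = S.zero then 1 else 0) else 0 := by
    intro t
    rw [S.qs2 t x]
    by_cases h1 : S.q g t = a <;> by_cases h2 : S.q x t = S.zero <;>
      by_cases h3 : S.q s x = S.zero <;> simp [h1, h2, h3]
  rw [Finset.sum_congr rfl fun t _ => e2 t]
  by_cases h3 : S.q s x = S.zero
  · simp only [h3, if_true, true_and]
    rw [← Finset.card_filter]
    by_cases h4 : InQ S (g * x) a
    · rw [if_pos h4]
      obtain ⟨t, ht, ht'⟩ := slot0_iff.2 ⟨hg, h4⟩
      exact card_coset2_filter ht ht'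
    · rw [if_neg h4, Finset.card_eq_zero, Finset.filter_eq_empty_iff]
      rintro t - ⟨ht, ht'⟩
      exact h4 (slot0_iff.1 ⟨t, ht, ht'⟩).2
  · simp only [h3, if_false, false_and, Finset.sum_const_zero]

/-- the total -/
theorem total (g s : S.G) :
    ∑ x ∈ univ.filter (fun x => S.q s x = S.zero), cv S g x =
      ∑ y ∈ univ.filter (fun y => S.q g y = S.zero), cv S s y := by
  have e1 : ∀ g x : S.G, cv S g x =
      ∑ y : S.G, if S.q g y = S.zero ∧ S.q x y = S.zero then 1 else 0 := fun g x => by
    rw [cv_filter, Finset.card_filter]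
  rw [Finset.sum_congr rfl fun x _ => e1 g x, Finset.sum_congr rfl fun x _ => e1 s x,
    Finset.sum_comm, Finset.sum_filter]
  refine Finset.sum_congr rfl fun y _ => ?_
  rw [Finset.sum_filter]
  by_cases h : S.q g y = S.zero
  · rw [if_pos h]
    refine Finset.sum_congr rfl fun x _ => ?_
    rw [S.qs2 x y]
    by_cases h1 : S.q s x = S.zero <;> by_cases h2 : S.q y x = S.zero <;> simp [h, h1, h2]
  · rw [if_neg h]
    refine Finset.sum_eq_zero fun x _ => ?_
    simp [h]

/-- `count` of helper66 in filter form -/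
theorem count_filter {g s : S.G} {a : S.Q} (hg : InQ S g a) (hs : InQ S s a) :
    ∑ t ∈ univ.filter (fun t => S.q g t = a), cv S t s =
      ∑ t ∈ univ.filter (fun t => S.q s t = a), cv S t g := by
  have h := count hg hs
  rw [← Finset.sum_subtype (univ.filter fun t => S.q g t = a) (fun t => by simp)
      (fun t => cv S t s),
    ← Finset.sum_subtype (univ.filter fun t => S.q s t = a) (fun t => by simp)
      (fun t => cv S g t)] at h
  rw [h]
  exact Finset.sum_congr rfl fun t _ => cv_comm _ _

/-- the part where `a` is a value of `g x`, resp. `s y` -/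
theorem sym_in {g s : S.G} {a : S.Q} (hg : InQ S g a) (hs : InQ S s a) :
    ∑ x ∈ univ.filter (fun x => S.q s x = S.zero ∧ InQ S (g * x) a), cv S g x =
      ∑ y ∈ univ.filter (fun y => S.q g y = S.zero ∧ InQ S (s * y) a), cv S s y := by
  rw [← row_in s hg, ← row_in g hs, count_filter hg hs]

/-- **the symmetric third-moment identity** (helper23), any kappa -/
theorem sym3 {g s : S.G} {a : S.Q} (hg : InQ S g a) (hs : InQ S s a) :
    ∑ x ∈ univ.filter (fun x => S.q s x = S.zero ∧ ¬ InQ S (g * x) a), cv S g x =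
      ∑ y ∈ univ.filter (fun y => S.q g y = S.zero ∧ ¬ InQ S (s * y) a), cv S s y := by
  have h1 := sym_in hg hs
  have h2 := total g s
  rw [← Finset.sum_filter_add_sum_filter_not (univ.filter fun x => S.q s x = S.zero)
      (fun x => InQ S (g * x) a) (fun x => cv S g x),
    ← Finset.sum_filter_add_sum_filter_not (univ.filter fun y => S.q g y = S.zero)
      (fun y => InQ S (s * y) a) (fun y => cv S s y)] at h2
  simp only [Finset.filter_filter] at h2
  omega

end Pool.Agent.KAP31
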